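import Mathlib
import Pool.Agent.RELD.CHC

/-!
MP_e16971_co, Q1: the reliability roots of the connected simple graphs are dense in the complex
plane; hence the closures for simple graphs and for multigraphs agree, and both are the plane.
-/

set_option autoImplicit false

open Pool.Agent.RELD in
theorem Pool.Agent.Results.MP_e16971_co.DenseRoots.result :
    closure Zsimple = closure Zmulti ∧ closure Zmulti = Set.univ :=
  ⟨dense_Zsimple.closure_eq.trans dense_Zmulti.closure_eq.symm, dense_Zmulti.closure_eq⟩
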